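import Mathlib
import Pool.Agent.Q291.BG.Fin

/-!
# The bidirectional `k`-neighbor graph can percolate with `k ≤ d`

For `d ≥ 150`, `k ≤ d` and `(d - 2) k (k - 1) ≥ 4 d^2` the `k`-BnG on `ℤ^d` percolates.
-/

namespace Pool.Agent.Results.MP_e5a0e3_pr.PercolatesBelowD

open Q291.BG

theorem result :
    (∀ d k : ℕ, 150 ≤ d → k ≤ d → 4 * d ^ 2 ≤ (d - 2) * (k * (k - 1)) → 0 < theta d k) ∧
    ¬ ∀ d k : ℕ, 1 ≤ d → 1 ≤ k → k ≤ d → theta d k = 0 := by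
  have h : ∀ d k : ℕ, 150 ≤ d → k ≤ d → 4 * d ^ 2 ≤ (d - 2) * (k * (k - 1)) → 0 < theta d k :=
    fun d k hd hk hc => perc_range hd hk hc
  refine ⟨h, fun hall => ?_⟩
  have h1 := h 150 26 le_rfl (by norm_num) (by norm_num)
  rw [hall 150 26 (by norm_num) (by norm_num) (by norm_num)] at h1
  exact lt_irrefl _ h1

end Pool.Agent.Results.MP_e5a0e3_pr.PercolatesBelowD
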